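import Pool.Agent.T9h70.Bic.Ram

set_option autoImplicit false

namespace Pool.Agent.T9h70.Bic

open Finset

/-- the type of the colours of sets of distances -/
def Kc (k : ℕ) (K : Type) : Type := Prop × (Fin k → Prop) × K

noncomputable instance (k : ℕ) (K : Type) [Fintype K] : Fintype (Kc k K) :=
  inferInstanceAs (Fintype (Prop × (Fin k → Prop) × K))

/-- the chain of distances -/
theorem chain {r n : ℕ} {K : Type} (hr : 0 < r) (S : ℕ → Prop) (col : (Fin r → ℕ) → K) (h1 : S 1)
    (hseq : ∀ l : ℕ → ℕ, (∀ i ≤ r, 1 ≤ l i ∧ S (l i)) →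
      (∀ i j, 2 ≤ j → j ≤ r → i + j ≤ r + 1 → ¬ S (∑ t ∈ Ico i (i + j), l t)) →
      ∑ t ∈ range (r + 1), l t ≤ n → col (fun i => l i) ≠ col (fun i => l (i + 1))) :
    ∀ i, (r + 1) * r ^ i ≤ n → ∃ A : Finset ℕ, A.card = i + 1 ∧
      ∀ a ∈ A, S a ∧ 1 ≤ a ∧ a ≤ r ^ i := by
  classical
  intro i
  induction i with
  | zero =>
    intro _
    refine ⟨{1}, by simp, fun a ha => ?_⟩
    rw [mem_singleton.1 ha]
    exact ⟨h1, le_rfl, le_rfl⟩
  | succ i ih =>
    intro hn
    have hle : (r + 1) * r ^ i ≤ n := by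
      refine (Nat.mul_le_mul_left _ ?_).trans hn
      rw [pow_succ]
      exact Nat.le_mul_of_pos_right _ hr
    obtain ⟨A, hA, hA'⟩ := ih hle
    have hne : A.Nonempty := card_pos.1 (by omega)
    set s := A.max' hne with hs
    have hsA := A.max'_mem hne
    obtain ⟨hs1, hs2, hs3⟩ := hA' s hsA
    obtain ⟨j, hj1, hj2, hj3⟩ : ∃ j, 2 ≤ j ∧ j ≤ r ∧ S (j * s) := by
      by_contra hcon
      push Not at hcon
      refine hseq (fun _ => s) (fun i _ => ⟨hs2, hs1⟩) (fun i j h2 h3 h4 => ?_) ?_ rfl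
      · rw [sum_const, Nat.card_Ico, smul_eq_mul, Nat.add_sub_cancel_left]
        exact hcon j h2 h3
      · rw [sum_const, card_range, smul_eq_mul]
        exact (Nat.mul_le_mul_left _ hs3).trans hle
    have hlt : s < j * s := by
      calc s < 2 * s := by omega
        _ ≤ j * s := Nat.mul_le_mul_right _ hj1
    have hnot : j * s ∉ A := fun h => by
      have := A.le_max' _ h
      omega
    refine ⟨insert (j * s) A, by rw [card_insert_of_notMem hnot, hA], fun a ha => ?_⟩
    rcases mem_insert.1 ha with rfl | ha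
    · refine ⟨hj3, by omega, ?_⟩
      rw [pow_succ, mul_comm]
      exact Nat.mul_le_mul hs3 hj2
    · obtain ⟨a1, a2, a3⟩ := hA' a ha
      refine ⟨a1, a2, a3.trans ?_⟩
      rw [pow_succ]
      exact Nat.le_mul_of_pos_right _ hr

/-- The additive part: `S` is the set of distances of the graph, `Si i` are the sets of distances
of the coordinates. -/
theorem additive (k h r w : ℕ) (hr : 0 < r) (K : Type) [Fintype K] : ∃ n,
    ∀ (S : ℕ → Prop) (Si : Fin k → ℕ → Prop) (col : (Fin r → ℕ) → K), S 1 →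
    (∀ l, 1 ≤ l → l ≤ n → (S l ↔ ∀ i, Si i l)) →
    (∀ l : ℕ → ℕ, (∀ i ≤ r, 1 ≤ l i ∧ S (l i)) →
      (∀ i j, 2 ≤ j → j ≤ r → i + j ≤ r + 1 → ¬ S (∑ t ∈ Ico i (i + j), l t)) →
      ∑ t ∈ range (r + 1), l t ≤ n → col (fun i => l i) ≠ col (fun i => l (i + 1))) →
    (∀ Q : Finset ℕ, (∀ a ∈ Q, a ≤ n) → w ≤ Q.card → ∃ a ∈ Q, ∃ b ∈ Q, a < b ∧ ¬ S (b - a)) →
    (∀ (i : Fin k) (X Y : Finset ℕ), X.card = h → Y.card = h → (∀ a ∈ X, a ≤ n) →
      (∀ a ∈ Y, a ≤ n) → (∀ a ∈ X, ∀ b ∈ X, a < b → ¬ Si i (b - a)) →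
      (∀ a ∈ Y, ∀ b ∈ Y, a < b → ¬ Si i (b - a)) →
      ¬ ∀ a ∈ X, ∀ b ∈ Y, a < b ∧ S (b - a)) → False := by
  classical
  set q := w + (r + 1) + 2 * h with hq
  obtain ⟨B, hB⟩ := ram_all (Kc k K) r q
  set n1 := r ^ B with hn1
  refine ⟨(r + 1) * n1, fun S Si col h1 hSi hseq hclq hbic => ?_⟩
  have hn1pos : 1 ≤ n1 := Nat.one_le_pow _ _ hr
  obtain ⟨A, hA, hA'⟩ := chain hr S col h1 hseq B le_rfl
  -- the colouring of the finite sets
  let c : Finset ℕ → Kc k K := fun J =>
    (S (∑ a ∈ J, a), (fun i => ∃ a ∈ J, ∃ b ∈ J, a < b ∧ Si i (b - a)),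
      if hJ : J.card = r then col (fun i => J.orderEmbOfFin hJ i) else col (fun _ => 0))
  obtain ⟨Q, hQA, hQc, hQ⟩ := hB c A (by omega)
  have hQ' : ∀ a ∈ Q, S a ∧ 1 ≤ a ∧ a ≤ n1 := fun a ha => hA' a (hQA ha)
  by_cases hcase : ∃ j, 2 ≤ j ∧ j ≤ r ∧ ∃ J ⊆ Q, J.card = j ∧ S (∑ a ∈ J, a)
  · -- all the sums of `j` elements are distances
    obtain ⟨j, hj2, hjr, J0, hJ0, hJ0c, hJ0S⟩ := hcase
    have hsum : ∀ J ⊆ Q, J.card = j → S (∑ a ∈ J, a) := by
      intro J hJ hJc
      obtain ⟨cl, hcl⟩ := hQ j hjr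
      have e := (hcl J hJ hJc).trans (hcl J0 hJ0 hJ0c).symm
      have e1 : (c J).1 = (c J0).1 := by rw [e]
      have e2 : (c J0).1 := hJ0S
      rw [← e1] at e2
      exact e2
    obtain ⟨a0, ha0, b0, hb0, hab0, hn0⟩ := hclq Q (fun a ha => by
      have := (hQ' a ha).2.2
      nlinarith) (by omega)
    have hb0' := (hQ' b0 hb0).2.2
    have hnn : n1 ≤ (r + 1) * n1 := Nat.le_mul_of_pos_left _ (Nat.succ_pos r)
    rw [hSi _ (by omega) (by omega)] at hn0
    push Not at hn0
    obtain ⟨i, hi⟩ := hn0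
    have hdiff : ∀ a ∈ Q, ∀ b ∈ Q, a < b → ¬ Si i (b - a) := by
      intro a ha b hb hab hS
      obtain ⟨cl, hcl⟩ := hQ 2 (by omega)
      have sub : ∀ a ∈ Q, ∀ b ∈ Q, ({a, b} : Finset ℕ) ⊆ Q := by
        intro a ha b hb x hx
        rcases mem_insert.1 hx with rfl | hx
        · exact ha
        · rw [mem_singleton.1 hx]
          exact hb
      have e := (hcl {a, b} (sub a ha b hb) (card_pair hab.ne)).trans
        (hcl {a0, b0} (sub a0 ha0 b0 hb0) (card_pair hab0.ne)).symm
      have e1 : (c {a, b}).2.1 i = (c {a0, b0}).2.1 i := by rw [e]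
      have e2 : (c {a, b}).2.1 i := ⟨a, by simp, b, by simp, hab, hS⟩
      rw [e1] at e2
      obtain ⟨a', ha', b', hb', hab', hS'⟩ := e2
      rw [mem_insert, mem_singleton] at ha' hb'
      rcases ha' with rfl | rfl <;> rcases hb' with rfl | rfl
      · exact lt_irrefl _ hab'
      · exact hi hS'
      · omega
      · exact lt_irrefl _ hab'
    -- three disjoint sets
    obtain ⟨F0, hF0, hF0c⟩ := exists_subset_card_eq (s := Q) (n := j - 2) (by omega)
    have hc1 : (Q \ F0).card = Q.card - F0.card := card_sdiff_of_subset hF0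
    obtain ⟨A1, hA1, hA1c⟩ := exists_subset_card_eq (s := Q \ F0) (n := h) (by omega)
    have hc2 : ((Q \ F0) \ A1).card = (Q \ F0).card - A1.card := card_sdiff_of_subset hA1
    obtain ⟨A2, hA2, hA2c⟩ := exists_subset_card_eq (s := (Q \ F0) \ A1) (n := h) (by omega)
    have hA1Q : ∀ a ∈ A1, a ∈ Q ∧ a ∉ F0 := fun a ha => mem_sdiff.1 (hA1 ha)
    have hA2Q : ∀ a ∈ A2, a ∈ Q ∧ a ∉ F0 ∧ a ∉ A1 := fun a ha => by
      have h1 := mem_sdiff.1 (hA2 ha)
      have h2 := mem_sdiff.1 h1.1
      exact ⟨h2.1, h2.2, h1.2⟩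
    set e := ∑ a ∈ F0, a with he
    have hele : e ≤ (j - 2) * n1 := by
      rw [he, ← hF0c, ← smul_eq_mul, ← sum_const]
      exact sum_le_sum fun a ha => (hQ' a (hF0 ha)).2.2
    set c0 := (r - 1) * n1 with hc0
    have hjr' : (j - 2) * n1 + n1 ≤ c0 := by
      rw [hc0, ← Nat.succ_mul]
      exact Nat.mul_le_mul_right _ (by omega)
    have hc0n : c0 + n1 ≤ (r + 1) * n1 := by
      rw [hc0, ← Nat.succ_mul]
      exact Nat.mul_le_mul_right _ (by omega)
    have hle1 : ∀ a ∈ A1, 1 ≤ a ∧ a ≤ n1 := fun a ha => (hQ' a (hA1Q a ha).1).2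
    have hle2 : ∀ a ∈ A2, 1 ≤ a ∧ a ≤ n1 := fun a ha => (hQ' a (hA2Q a ha).1).2
    refine hbic i (A1.image fun a => c0 - e - a) (A2.image fun a => c0 + a) ?_ ?_ ?_ ?_ ?_ ?_ ?_
    · rw [card_image_of_injOn, hA1c]
      intro a ha b hb hab
      have h3 := hle1 a ha
      have h4 := hle1 b hb
      simp only at hab
      omega
    · rw [card_image_of_injOn, hA2c]
      intro a ha b hb hab
      simp only at hab
      omega
    · intro x hx
      obtain ⟨a, ha, rfl⟩ := mem_image.1 hx
      have h3 := hle1 a ha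
      omega
    · intro x hx
      obtain ⟨a, ha, rfl⟩ := mem_image.1 hx
      have h3 := hle2 a ha
      omega
    · intro x hx y hy hxy
      obtain ⟨a, ha, rfl⟩ := mem_image.1 hx
      obtain ⟨b, hb, rfl⟩ := mem_image.1 hy
      have h3 := hle1 a ha
      have h4 := hle1 b hb
      have h5 := hdiff b (hA1Q b hb).1 a (hA1Q a ha).1 (by omega)
      have h6 : c0 - e - b - (c0 - e - a) = a - b := by omega
      rw [h6]
      exact h5
    · intro x hx y hy hxy
      obtain ⟨a, ha, rfl⟩ := mem_image.1 hx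
      obtain ⟨b, hb, rfl⟩ := mem_image.1 hy
      have h5 := hdiff a (hA2Q a ha).1 b (hA2Q b hb).1 (by omega)
      have h6 : c0 + b - (c0 + a) = b - a := by omega
      rw [h6]
      exact h5
    · intro x hx y hy
      obtain ⟨a, ha, rfl⟩ := mem_image.1 hx
      obtain ⟨b, hb, rfl⟩ := mem_image.1 hy
      have h3 := hle1 a ha
      have h4 := hle2 b hb
      have hab : a ≠ b := fun h => (hA2Q b hb).2.2 (h ▸ ha)
      have h5 := hsum (insert a (insert b F0)) (by
        intro x hx
        rcases mem_insert.1 hx with rfl | hx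
        · exact (hA1Q _ ha).1
        · rcases mem_insert.1 hx with rfl | hx
          · exact (hA2Q _ hb).1
          · exact hF0 hx) (by
        rw [card_insert_of_notMem, card_insert_of_notMem (hA2Q b hb).2.1, hF0c]
        · omega
        · rw [mem_insert, not_or]
          exact ⟨hab, (hA1Q a ha).2⟩)
      rw [sum_insert (by rw [mem_insert, not_or]; exact ⟨hab, (hA1Q a ha).2⟩),
        sum_insert (hA2Q b hb).2.1, ← he] at h5
      have h6 : c0 + b - (c0 - e - a) = a + (b + e) := by omega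
      refine ⟨by omega, ?_⟩
      rw [h6]
      exact h5
  · -- no sum of `2, …, r` elements is a distance
    push Not at hcase
    obtain ⟨Q1, hQ1, hQ1c⟩ := exists_subset_card_eq (s := Q) (n := r + 1) (by omega)
    let l : ℕ → ℕ := fun i => if hi : i < r + 1 then Q1.orderEmbOfFin hQ1c ⟨i, hi⟩ else 0
    have hlQ : ∀ i ≤ r, l i ∈ Q := by
      intro i hi
      simp only [l, dif_pos (show i < r + 1 by omega)]
      exact hQ1 (orderEmbOfFin_mem _ _ _)
    have hlm : ∀ i j, i < j → j ≤ r → l i < l j := by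
      intro i j hij hj
      simp only [l, dif_pos (show i < r + 1 by omega), dif_pos (show j < r + 1 by omega)]
      exact (Q1.orderEmbOfFin hQ1c).strictMono (by simpa using hij)
    have hinj : ∀ i j, i ≤ r → j ≤ r → l i = l j → i = j := by
      intro i j hi hj hij
      rcases lt_trichotomy i j with h | h | h
      · have := hlm i j h hj
        omega
      · exact h
      · have := hlm j i h hi
        omega
    refine hseq l (fun i hi => ⟨(hQ' _ (hlQ i hi)).2.1, (hQ' _ (hlQ i hi)).1⟩) ?_ ?_ ?_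
    · intro i j hj2 hjr hij
      have h3 : ((Ico i (i + j)).image l).card = j := by
        rw [card_image_of_injOn, Nat.card_Ico, Nat.add_sub_cancel_left]
        intro a ha b hb hab
        rw [mem_coe, mem_Ico] at ha hb
        exact hinj a b (by omega) (by omega) hab
      have h4 := hcase j hj2 hjr ((Ico i (i + j)).image l) (by
        intro x hx
        obtain ⟨a, ha, rfl⟩ := mem_image.1 hx
        rw [mem_Ico] at ha
        exact hlQ a (by omega)) h3
      rwa [sum_image (by
        intro a ha b hb hab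
        rw [mem_coe, mem_Ico] at ha hb
        exact hinj a b (by omega) (by omega) hab)] at h4
    · calc ∑ t ∈ range (r + 1), l t ≤ ∑ _t ∈ range (r + 1), n1 := by
            refine sum_le_sum fun t ht => ?_
            rw [mem_range] at ht
            exact (hQ' _ (hlQ t (by omega))).2.2
        _ = (r + 1) * n1 := by rw [sum_const, card_range, smul_eq_mul]
    · -- the colours
      have hwin : ∀ d ≤ 1, ∀ J : Finset ℕ, J = (range r).image (fun i => l (i + d)) →
          J ⊆ Q ∧ J.card = r ∧ (c J).2.2 = col (fun i => l (i + d)) := by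
        intro d hd J hJ
        have i1 : Set.InjOn (fun i => l (i + d)) (range r : Finset ℕ) := by
          intro a ha b hb hab
          rw [mem_coe, mem_range] at ha hb
          have := hinj (a + d) (b + d) (by omega) (by omega) hab
          omega
        have h3 : J.card = r := by rw [hJ, card_image_of_injOn i1, card_range]
        refine ⟨?_, h3, ?_⟩
        · intro x hx
          rw [hJ] at hx
          obtain ⟨a, ha, rfl⟩ := mem_image.1 hx
          rw [mem_range] at ha
          exact hlQ _ (by omega)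
        · simp only [c, dif_pos h3]
          congr 1
          refine (orderEmbOfFin_unique h3 (f := fun i : Fin r => l (i + d)) ?_ ?_).symm
          · intro i
            rw [hJ]
            exact mem_image_of_mem (fun i => l (i + d)) (mem_range.2 i.2)
          · intro i j hij
            exact hlm _ _ (by have : (i : ℕ) < j := hij
                              omega) (by omega)
      obtain ⟨cl, hcl⟩ := hQ r le_rfl
      obtain ⟨a1, a2, a3⟩ := hwin 0 (by omega) _ rfl
      obtain ⟨b1, b2, b3⟩ := hwin 1 le_rfl _ rfl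
      have e := (hcl _ a1 a2).trans (hcl _ b1 b2).symm
      rw [e] at a3
      exact a3.symm.trans b3

end Pool.Agent.T9h70.Bic
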