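import Mathlib

set_option autoImplicit false

namespace Pool.Agent.T9h70.Bic

open Finset

/-- Kővári–Sós–Turán: a dense relation contains a complete bipartite one -/
theorem kst (h L : ℕ) : ∃ N0, ∀ N, N0 ≤ N → ∀ E : Fin N → Fin N → Prop,
    (¬ ∃ A B : Finset (Fin N), A.card = h ∧ B.card = h ∧ ∀ a ∈ A, ∀ b ∈ B, E a b) →
    ∀ P : Finset (Fin N × Fin N), (∀ p ∈ P, E p.1 p.2) → L * P.card < N ^ 2 := by
  classical
  set s := 4 * L * h with hs
  refine ⟨2 * L * s + 4 * L * (2 ^ s * h) + 1, fun N hN E hE P hP => ?_⟩
  by_contra hcon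
  push Not at hcon
  have hN0 : 0 < N := by omega
  rcases Nat.eq_zero_or_pos L with hL | hL
  · subst hL
    have : 0 < N ^ 2 := by positivity
    omega
  rcases Nat.eq_zero_or_pos h with hh | hh
  · subst hh
    exact hE ⟨∅, ∅, rfl, rfl, by simp⟩
  -- the degrees
  let d : Fin N → ℕ := fun b => (univ.filter fun a => E a b).card
  have hdN : ∀ b, d b ≤ N := fun b => by
    have := card_le_univ (univ.filter fun a => E a b)
    rwa [Fintype.card_fin] at this
  have hsum : P.card ≤ ∑ b, d b := by
    have h1 : P ⊆ (univ : Finset (Fin N)).biUnion fun b =>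
        (univ.filter fun a => E a b).image fun a => (a, b) := by
      rintro ⟨a, b⟩ hp
      simp only [mem_biUnion, mem_univ, true_and, mem_image, mem_filter, Prod.mk.injEq]
      exact ⟨b, a, hP _ hp, rfl, rfl⟩
    refine (card_le_card h1).trans (card_biUnion_le.trans ?_)
    exact sum_le_sum fun b _ => card_image_le
  set H : Finset (Fin N) := univ.filter fun b => N ≤ 2 * L * d b with hH
  have hHc : N ≤ 2 * L * H.card := by
    have h1 : ∀ b, 2 * L * d b ≤ N + if b ∈ H then 2 * L * N else 0 := by
      intro b
      split_ifs with hb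
      · have := Nat.mul_le_mul_left (2 * L) (hdN b)
        omega
      · rw [hH, mem_filter] at hb
        have := not_and.1 hb (mem_univ b)
        omega
    have h2 : ∑ b, 2 * L * d b ≤ N * N + H.card * (2 * L * N) := by
      refine (sum_le_sum fun b _ => h1 b).trans ?_
      rw [sum_add_distrib, sum_const, card_univ, Fintype.card_fin, smul_eq_mul, ← sum_filter,
        sum_const, smul_eq_mul]
      refine Nat.add_le_add_left (Nat.mul_le_mul_right _ (card_le_card ?_)) _
      intro b hb
      exact (mem_filter.1 hb).2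
    rw [← mul_sum] at h2
    have h3 : 2 * N ^ 2 ≤ 2 * L * ∑ b, d b := by
      calc 2 * N ^ 2 ≤ 2 * (L * P.card) := Nat.mul_le_mul_left 2 hcon
        _ ≤ 2 * (L * ∑ b, d b) := Nat.mul_le_mul_left 2 (Nat.mul_le_mul_left L hsum)
        _ = 2 * L * ∑ b, d b := by ring
    have h4 : N * N ≤ N * (2 * L * H.card) := by nlinarith
    exact Nat.le_of_mul_le_mul_left h4 hN0
  have hsH : s ≤ H.card := by
    by_contra h1
    push Not at h1
    have h2 : 2 * L * H.card ≤ 2 * L * s := Nat.mul_le_mul_left _ h1.le
    omega
  obtain ⟨H', hH', hc'⟩ := exists_subset_card_eq hsH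
  -- the columns
  let c : Fin N → Finset (Fin N) := fun a => H'.filter fun b => E a b
  have hcs : ∀ a, (c a).card ≤ s := fun a => (card_le_card (filter_subset _ _)).trans hc'.le
  have hdc : ∑ a, (c a).card = ∑ b ∈ H', d b := by
    simp only [c, d, card_filter]
    exact sum_comm
  have hlow : s * N ≤ 2 * L * ∑ a, (c a).card := by
    rw [hdc, mul_sum, ← hc', ← smul_eq_mul (a := H'.card), ← sum_const]
    refine sum_le_sum fun b hb => ?_
    exact (mem_filter.1 (hH' hb)).2
  set A' : Finset (Fin N) := univ.filter fun a => h ≤ (c a).card with hA'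
  have hup : ∑ a, (c a).card ≤ N * h + A'.card * s := by
    have h1 : ∀ a, (c a).card ≤ h + if a ∈ A' then s else 0 := by
      intro a
      split_ifs with ha
      · exact (hcs a).trans (Nat.le_add_left _ _)
      · rw [hA', mem_filter] at ha
        have := not_and.1 ha (mem_univ a)
        omega
    refine (sum_le_sum fun a _ => h1 a).trans ?_
    rw [sum_add_distrib, sum_const, card_univ, Fintype.card_fin, smul_eq_mul, ← sum_filter,
      sum_const, smul_eq_mul]
    refine Nat.add_le_add_left (Nat.mul_le_mul_right _ (card_le_card ?_)) _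
    intro b hb
    exact (mem_filter.1 hb).2
  have hA'c : N ≤ 4 * L * A'.card := by
    have h1 : s * N ≤ 2 * L * (N * h + A'.card * s) := hlow.trans (Nat.mul_le_mul_left _ hup)
    rw [hs] at h1
    have h2 : (2 * L * h) * (2 * N) ≤ (2 * L * h) * (N + 4 * L * A'.card) := by
      calc (2 * L * h) * (2 * N) = 4 * L * h * N := by ring
        _ ≤ 2 * L * (N * h + A'.card * (4 * L * h)) := h1
        _ = (2 * L * h) * (N + 4 * L * A'.card) := by ring
    have h3 := Nat.le_of_mul_le_mul_left h2 (by positivity)
    omega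
  have hbig : (H'.powerset).card * h < A'.card := by
    rw [card_powerset, hc']
    by_contra h1
    push Not at h1
    have h2 : 4 * L * A'.card ≤ 4 * L * (2 ^ s * h) := Nat.mul_le_mul_left _ h1
    omega
  obtain ⟨B, -, hB⟩ := exists_lt_card_fiber_of_mul_lt_card_of_maps_to
    (f := c) (fun a _ => mem_powerset.2 (filter_subset _ _)) hbig
  have hBh : h ≤ B.card := by
    obtain ⟨a, ha⟩ := card_pos.1 ((Nat.zero_le _).trans_lt hB)
    rw [mem_filter] at ha
    rw [← ha.2]
    have := ha.1
    rw [hA', mem_filter] at this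
    exact this.2
  obtain ⟨A1, hA1, hA1c⟩ := exists_subset_card_eq hB.le
  obtain ⟨B1, hB1, hB1c⟩ := exists_subset_card_eq hBh
  refine hE ⟨A1, B1, hA1c, hB1c, fun a ha b hb => ?_⟩
  have h1 := (mem_filter.1 (hA1 ha)).2
  have h2 := hB1 hb
  rw [← h1] at h2
  exact (mem_filter.1 h2).2

/-- if every fibre of two coordinates is sparse then the set is sparse -/
theorem two_fiber {K : Type} [Fintype K] [DecidableEq K] {N c : ℕ} (B : Finset (K → Fin N))
    (i j : K) (hij : i ≠ j)
    (h : ∀ (ω : K → Fin N) (P : Finset (Fin N × Fin N)),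
      (∀ p ∈ P, Function.update (Function.update ω i p.1) j p.2 ∈ B) → P.card ≤ c) :
    B.card * N ^ 2 ≤ N ^ (Fintype.card K) * c := by
  classical
  let P : (K → Fin N) → Finset (Fin N × Fin N) := fun ω =>
    univ.filter fun p => Function.update (Function.update ω i p.1) j p.2 ∈ B
  have h1 : (B ×ˢ (univ : Finset (Fin N × Fin N))).card ≤
      ((univ : Finset (K → Fin N)).sigma P).card := by
    refine card_le_card_of_injOn
      (fun x => ⟨Function.update (Function.update x.1 i x.2.1) j x.2.2, (x.1 i, x.1 j)⟩) ?_ ?_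
    · rintro ⟨ω, a, b⟩ hx
      rw [mem_coe, mem_product] at hx
      simp only [mem_coe, mem_sigma, mem_univ, true_and, P, mem_filter]
      have e : Function.update (Function.update (Function.update (Function.update ω i a) j b) i
          (ω i)) j (ω j) = ω := by
        funext t
        by_cases ht : t = j
        · subst ht; simp
        · by_cases ht' : t = i
          · subst ht'; simp [Function.update_of_ne hij]
          · simp [Function.update_of_ne ht, Function.update_of_ne ht']
      rw [e]
      exact hx.1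
    · rintro ⟨ω, a, b⟩ - ⟨ω', a', b'⟩ - heq
      simp only [Sigma.mk.injEq, heq_eq_eq, Prod.mk.injEq] at heq
      obtain ⟨h1, h2, h3⟩ := heq
      have ha : a = a' := by
        have := congrFun h1 i
        simpa [Function.update_of_ne hij] using this
      have hb : b = b' := by
        have := congrFun h1 j
        simpa using this
      have hω : ω = ω' := by
        funext t
        by_cases ht : t = j
        · subst ht; exact h3
        · by_cases ht' : t = i
          · subst ht'; exact h2
          · have := congrFun h1 t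
            simpa [Function.update_of_ne ht, Function.update_of_ne ht'] using this
      rw [ha, hb, hω]
  rw [card_product, card_sigma, card_univ, Fintype.card_prod, Fintype.card_fin] at h1
  have h2 : ∑ ω : K → Fin N, (P ω).card ≤ ∑ _ω : K → Fin N, c :=
    sum_le_sum fun ω _ => h ω (P ω) fun p hp => (mem_filter.1 hp).2
  rw [sum_const, card_univ, Fintype.card_fun, Fintype.card_fin, smul_eq_mul] at h2
  calc B.card * N ^ 2 = B.card * (N * N) := by rw [sq]
    _ ≤ _ := h1.trans h2

/-- the union bound: if all the sets are sparse in every pair of coordinates then they do not cover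
-/
theorem exists_avoid {K : Type} [Fintype K] [DecidableEq K] {N L : ℕ} (hN : 0 < N)
    (I : Finset (K × K)) (hI : I.card ≤ L) (hI' : ∀ p ∈ I, p.1 ≠ p.2)
    (Bad : K × K → (K → Fin N) → Prop)
    (h : ∀ p ∈ I, ∀ (ω : K → Fin N) (P : Finset (Fin N × Fin N)),
      (∀ x ∈ P, Bad p (Function.update (Function.update ω p.1 x.1) p.2 x.2)) →
      L * P.card < N ^ 2) : ∃ ω, ∀ p ∈ I, ¬ Bad p ω := by
  classical
  by_contra hcon
  push Not at hcon
  let B : K × K → Finset (K → Fin N) := fun p => univ.filter fun ω => Bad p ω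
  have hcov : (univ : Finset (K → Fin N)) ⊆ I.biUnion B := by
    intro ω _
    obtain ⟨p, hp, hω⟩ := hcon ω
    exact mem_biUnion.2 ⟨p, hp, mem_filter.2 ⟨mem_univ _, hω⟩⟩
  have hc := (card_le_card hcov).trans card_biUnion_le
  rw [card_univ, Fintype.card_fun, Fintype.card_fin] at hc
  have hNK : 0 < N ^ (Fintype.card K) := by positivity
  have hN2 : 0 < N ^ 2 := by positivity
  have hb : ∀ p ∈ I, L * (B p).card + 1 ≤ N ^ (Fintype.card K) := by
    intro p hp
    rcases Nat.eq_zero_or_pos L with hL | hL
    · subst hL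
      omega
    set c := (N ^ 2 - 1) / L with hcdef
    have h1 := two_fiber (c := c) (B p) p.1 p.2 (hI' p hp) (fun ω P hP => by
      rw [hcdef, Nat.le_div_iff_mul_le hL, mul_comm]
      have := h p hp ω P fun x hx => (mem_filter.1 (hP x hx)).2
      omega)
    have h2 : L * c < N ^ 2 := by
      have := Nat.mul_div_le (N ^ 2 - 1) L
      rw [← hcdef] at this
      omega
    by_contra h3
    push Not at h3
    have h4 : N ^ (Fintype.card K) ≤ L * (B p).card := by omega
    have h5 : N ^ (Fintype.card K) * N ^ 2 ≤ N ^ (Fintype.card K) * (L * c) := by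
      calc N ^ (Fintype.card K) * N ^ 2 ≤ L * (B p).card * N ^ 2 := Nat.mul_le_mul_right _ h4
        _ = L * ((B p).card * N ^ 2) := by ring
        _ ≤ L * (N ^ (Fintype.card K) * c) := Nat.mul_le_mul_left _ h1
        _ = N ^ (Fintype.card K) * (L * c) := by ring
    have h6 := Nat.le_of_mul_le_mul_left h5 hNK
    omega
  have h1 : ∑ p ∈ I, (L * (B p).card + 1) ≤ I.card * N ^ (Fintype.card K) := by
    have := sum_le_sum hb
    rwa [sum_const, smul_eq_mul] at this
  rw [sum_add_distrib, ← mul_sum, sum_const, smul_eq_mul, mul_one] at h1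
  have h2 : I.card * N ^ (Fintype.card K) ≤ L * N ^ (Fintype.card K) :=
    Nat.mul_le_mul_right _ hI
  have h3 : L * N ^ (Fintype.card K) ≤ L * ∑ p ∈ I, (B p).card := Nat.mul_le_mul_left _ hc
  rcases Nat.eq_zero_or_pos I.card with hI0 | hI0
  · rw [card_eq_zero] at hI0
    rw [hI0, sum_empty] at hc
    omega
  · omega

end Pool.Agent.T9h70.Bic
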