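import Pool.Agent.T9h70.Bic.Count
import Pool.Agent.N471.EL.Main

set_option autoImplicit false

namespace Pool.Agent.T9h70.Bic

open Finset

variable {V : Type} {r : ℕ}

/-- the windows which are induced directed paths -/
def Ind (D : V → V → Prop) (G : SimpleGraph V) (x : Fin (r + 1) → V) : Prop :=
  (∀ i : Fin r, D (x i.castSucc) (x i.succ)) ∧
  ∀ i j : Fin (r + 1), (i : ℕ) + 2 ≤ j → x i ≠ x j ∧ ¬ G.Adj (x i) (x j)

/-- the next window -/
def shf (x : Fin (r + 1) → V) (z : V) : Fin (r + 1) → V :=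
  Fin.snoc (α := fun _ => V) (Fin.tail x) z

theorem shf_last (x : Fin (r + 1) → V) (z : V) : shf x z (Fin.last r) = z :=
  Fin.snoc_last _ _

theorem shf_castSucc (x : Fin (r + 1) → V) (z : V) (i : Fin r) :
    shf x z i.castSucc = x i.succ := by
  unfold shf
  rw [Fin.snoc_castSucc]
  rfl

/-- the levels -/
def LevW (D : V → V → Prop) (G C : SimpleGraph V) (N : ℕ) : ℕ → (Fin (r + 1) → V) → Prop
  | 0, x => Ind D G x
  | j + 1, x => Ind D G x ∧ ∃ fam : Fin N → V, Function.Injective fam ∧
      (∀ a b, a ≠ b → ¬ C.Adj (fam a) (fam b)) ∧ ∀ a, LevW D G C N j (shf x (fam a))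

theorem LevW.ind {D : V → V → Prop} {G C : SimpleGraph V} {N : ℕ} : ∀ {j : ℕ}
    {x : Fin (r + 1) → V}, LevW D G C N j x → Ind D G x
  | 0, _, h => h
  | _ + 1, _, h => h.1

/-- there are no two sets of size `h` which are stable in `C` and complete to each other in `G` -/
def NoBic (G C : SimpleGraph V) (h : ℕ) : Prop :=
  ∀ A B : Finset V, A.card = h → B.card = h → (∀ x ∈ A, ∀ y ∈ A, x ≠ y → ¬ C.Adj x y) →
    (∀ x ∈ B, ∀ y ∈ B, x ≠ y → ¬ C.Adj x y) → ∃ x ∈ A, ∃ y ∈ B, ¬ G.Adj x y

theorem NoBic.elim {G C : SimpleGraph V} {h : ℕ} (hC : NoBic G C h) {ι : Type} (A B : Finset ι)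
    (hA : A.card = h) (hB : B.card = h) (u w : ι → V)
    (hu : ∀ a ∈ A, ∀ b ∈ A, u a = u b → a = b) (hw : ∀ a ∈ B, ∀ b ∈ B, w a = w b → a = b)
    (hu' : ∀ a ∈ A, ∀ b ∈ A, a ≠ b → ¬ C.Adj (u a) (u b))
    (hw' : ∀ a ∈ B, ∀ b ∈ B, a ≠ b → ¬ C.Adj (w a) (w b))
    (huw : ∀ a ∈ A, ∀ b ∈ B, G.Adj (u a) (w b)) : False := by
  classical
  obtain ⟨x, hx, y, hy, hxy⟩ := hC (A.image u) (B.image w)
    (by rw [card_image_of_injOn (fun a ha b hb hab => hu a ha b hb hab), hA])
    (by rw [card_image_of_injOn (fun a ha b hb hab => hw a ha b hb hab), hB])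
    (by
      intro x hx y hy hxy
      obtain ⟨a, ha, rfl⟩ := mem_image.1 hx
      obtain ⟨b, hb, rfl⟩ := mem_image.1 hy
      exact hu' a ha b hb fun h => hxy (by rw [h]))
    (by
      intro x hx y hy hxy
      obtain ⟨a, ha, rfl⟩ := mem_image.1 hx
      obtain ⟨b, hb, rfl⟩ := mem_image.1 hy
      exact hw' a ha b hb fun h => hxy (by rw [h]))
  obtain ⟨a, ha, rfl⟩ := mem_image.1 hx
  obtain ⟨b, hb, rfl⟩ := mem_image.1 hy
  exact hxy (huw a ha b hb)

/-! ### the states -/

/-- the depth of a node of the tree with the parents `p` -/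
def dp (p : ℕ → ℕ) (j : ℕ) : ℕ := if _h : 1 ≤ j ∧ p j < j then dp p (p j) + 1 else 0
termination_by j
decreasing_by exact _h.2

/-- the window of a node -/
def st (p : ℕ → ℕ) {M N : ℕ} (fm : ℕ → (Fin (r + 1) → V) → Fin N → V) (x0 : Fin (r + 1) → V)
    (ω : Fin (M + 1) → Fin N) (j : ℕ) : Fin (r + 1) → V :=
  if h : 1 ≤ j ∧ p j < j then
    shf (st p fm x0 ω (p j)) (fm (M - dp p j) (st p fm x0 ω (p j)) (ω (Fin.ofNat (M + 1) j)))
  else x0
termination_by j
decreasing_by all_goals exact h.2

theorem dp_pos {p : ℕ → ℕ} (hp : ∀ j, 1 ≤ j → p j < j) {j : ℕ} (hj : 1 ≤ j) :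
    dp p j = dp p (p j) + 1 := by
  rw [dp, dif_pos ⟨hj, hp j hj⟩]

theorem dp_zero (p : ℕ → ℕ) : dp p 0 = 0 := by
  rw [dp, dif_neg (by omega)]

theorem dp_le {p : ℕ → ℕ} (hp : ∀ j, 1 ≤ j → p j < j) : ∀ j, dp p j ≤ j := by
  intro j
  induction j using Nat.strong_induction_on with
  | _ j ih =>
    rcases Nat.eq_zero_or_pos j with rfl | hj
    · rw [dp_zero]
    · rw [dp_pos hp hj]
      have h1 := hp j hj
      have h2 := ih (p j) h1
      omega

theorem iter_dp {p : ℕ → ℕ} (hp : ∀ j, 1 ≤ j → p j < j) : ∀ j, p^[dp p j] j = 0 := by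
  intro j
  induction j using Nat.strong_induction_on with
  | _ j ih =>
    rcases Nat.eq_zero_or_pos j with rfl | hj
    · rw [dp_zero]
      rfl
    · rw [dp_pos hp hj, Function.iterate_succ_apply]
      exact ih _ (hp j hj)

theorem iter_le {p : ℕ → ℕ} (hp : ∀ j, 1 ≤ j → p j < j) : ∀ s j, s ≤ dp p j → p^[s] j ≤ j := by
  intro s
  induction s with
  | zero => intro j _; exact le_rfl
  | succ s ih =>
    intro j hs
    rcases Nat.eq_zero_or_pos j with rfl | hj
    · rw [dp_zero] at hs
      omega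
    · rw [Function.iterate_succ_apply]
      rw [dp_pos hp hj] at hs
      exact (ih _ (by omega)).trans (hp j hj).le

theorem st_zero {p : ℕ → ℕ} {M N : ℕ} (fm : ℕ → (Fin (r + 1) → V) → Fin N → V)
    (x0 : Fin (r + 1) → V) (ω : Fin (M + 1) → Fin N) : st p fm x0 ω 0 = x0 := by
  rw [st, dif_neg (by omega)]

theorem st_pos {p : ℕ → ℕ} (hp : ∀ j, 1 ≤ j → p j < j) {M N : ℕ}
    (fm : ℕ → (Fin (r + 1) → V) → Fin N → V)
    (x0 : Fin (r + 1) → V) (ω : Fin (M + 1) → Fin N) {j : ℕ} (hj : 1 ≤ j) : st p fm x0 ω j =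
    shf (st p fm x0 ω (p j)) (fm (M - dp p j) (st p fm x0 ω (p j)) (ω (Fin.ofNat (M + 1) j))) := by
  rw [st, dif_pos ⟨hj, hp j hj⟩]

theorem st_entry {p : ℕ → ℕ} (hp : ∀ j, 1 ≤ j → p j < j) {M N : ℕ}
    (fm : ℕ → (Fin (r + 1) → V) → Fin N → V) (x0 : Fin (r + 1) → V) (ω : Fin (M + 1) → Fin N) :
    ∀ s j, s ≤ dp p j → s ≤ r → st p fm x0 ω j ⟨r - s, by omega⟩ =
      st p fm x0 ω (p^[s] j) (Fin.last r) := by
  intro s
  induction s with
  | zero => intro j _ _; rfl
  | succ s ih =>
    intro j hs hr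
    have hj : 1 ≤ j := by
      by_contra h
      obtain rfl : j = 0 := by omega
      rw [dp_zero] at hs
      omega
    rw [dp_pos hp hj] at hs
    have h1 := ih (p j) (by omega) (by omega)
    rw [Function.iterate_succ_apply, ← h1, st_pos hp fm x0 ω hj]
    have h2 := shf_castSucc (st p fm x0 ω (p j))
      (fm (M - dp p j) (st p fm x0 ω (p j)) (ω (Fin.ofNat (M + 1) j))) ⟨r - (s + 1), by omega⟩
    have h3 : (⟨r - (s + 1), by omega⟩ : Fin r).succ = ⟨r - s, by omega⟩ := by
      ext
      simp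
      omega
    rw [h3] at h2
    exact h2

theorem st_indep {p : ℕ → ℕ} (hp : ∀ j, 1 ≤ j → p j < j) {M N : ℕ}
    (fm : ℕ → (Fin (r + 1) → V) → Fin N → V) (x0 : Fin (r + 1) → V) (ω : Fin (M + 1) → Fin N)
    (i : Fin (M + 1)) (a : Fin N) : ∀ j ≤ M, (¬ ∃ s ≤ dp p j, p^[s] j = i) →
      st p fm x0 (Function.update ω i a) j = st p fm x0 ω j := by
  intro j
  induction j using Nat.strong_induction_on with
  | _ j ih =>
    intro hjM hs
    rcases Nat.eq_zero_or_pos j with rfl | hj
    · rw [st_zero, st_zero]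
    · have h1 := hp j hj
      have h2 := ih (p j) h1 (by omega) (by
        rintro ⟨s, hs1, hs2⟩
        refine hs ⟨s + 1, ?_, ?_⟩
        · rw [dp_pos hp hj]
          omega
        · rw [Function.iterate_succ_apply]
          exact hs2)
      have h3 : Fin.ofNat (M + 1) j ≠ i := by
        intro h
        refine hs ⟨0, Nat.zero_le _, ?_⟩
        rw [← h]
        simp only [Function.iterate_zero, id, Fin.ofNat]
        exact (Nat.mod_eq_of_lt (by omega)).symm
      rw [st_pos hp fm x0 _ hj, st_pos hp fm x0 _ hj, h2, Function.update_of_ne h3]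

/-- a large level gives an induced tree -/
theorem tree_of_lev (M h : ℕ) (T : SimpleGraph (Fin (M + 1))) (hT : T.IsTree) : ∃ N0 : ℕ,
    ∀ N, N0 ≤ N → ∀ (V : Type) (D : V → V → Prop) (G C : SimpleGraph V) (r : ℕ),
      M + 1 ≤ r → (∀ x y, D x y → G.Adj x y) → NoBic G C h →
      ∀ x : Fin (r + 1) → V, LevW D G C N M x → T.IsIndContained G := by
  classical
  obtain ⟨f, p, f1, f2, hp, f4⟩ := Pool.Agent.N471.EL.tree_enum M (Fin (M + 1)) T hT (by simp)
  set L := (M + 1) * (M + 1) with hL
  obtain ⟨N1, hN1⟩ := kst h (2 * L)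
  refine ⟨N1 + 2 * L + 1, fun N hN V D G C r hr hD hC x0 hx0 => ?_⟩
  -- the families
  let fm : ℕ → (Fin (r + 1) → V) → Fin N → V := fun j x =>
    if h : ∃ fam : Fin N → V, Function.Injective fam ∧
      (∀ a b, a ≠ b → ¬ C.Adj (fam a) (fam b)) ∧ ∀ a, LevW D G C N j (shf x (fam a))
    then h.choose else fun _ => x (Fin.last r)
  have hfm : ∀ j x, LevW D G C N (j + 1) x → Function.Injective (fm j x) ∧
      (∀ a b, a ≠ b → ¬ C.Adj (fm j x a) (fm j x b)) ∧
      ∀ a, LevW D G C N j (shf x (fm j x a)) := by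
    intro j x hx
    have h := hx.2
    simp only [fm, dif_pos h]
    exact h.choose_spec
  have hlev : ∀ ω : Fin (M + 1) → Fin N, ∀ j ≤ M, LevW D G C N (M - dp p j) (st p fm x0 ω j) := by
    intro ω j
    induction j using Nat.strong_induction_on with
    | _ j ih =>
      intro hjM
      rcases Nat.eq_zero_or_pos j with rfl | hj
      · rw [st_zero, dp_zero]
        exact hx0
      · have h1 := hp j hj
        have h2 := ih (p j) h1 (by omega)
        have h3 := dp_le hp j
        have h4 := dp_pos hp hj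
        have e : M - dp p (p j) = (M - dp p j) + 1 := by omega
        rw [e] at h2
        rw [st_pos hp fm x0 ω hj]
        exact (hfm _ _ h2).2.2 _
  -- a node and its parent
  have hlevp : ∀ ω : Fin (M + 1) → Fin N, ∀ j, 1 ≤ j → j ≤ M →
      LevW D G C N ((M - dp p j) + 1) (st p fm x0 ω (p j)) := by
    intro ω j hj hjM
    have h1 := hp j hj
    have h2 := hlev ω (p j) (by omega)
    have h3 := dp_le hp j
    have h4 := dp_pos hp hj
    have e : M - dp p (p j) = (M - dp p j) + 1 := by omega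
    rwa [e] at h2
  have hvt : ∀ (ω : Fin (M + 1) → Fin N) (j : ℕ), 1 ≤ j → st p fm x0 ω j (Fin.last r) =
      fm (M - dp p j) (st p fm x0 ω (p j)) (ω (Fin.ofNat (M + 1) j)) := by
    intro ω j hj
    rw [st_pos hp fm x0 ω hj, shf_last]
  -- the pairs of nodes
  let I : Finset (Fin (M + 1) × Fin (M + 1)) :=
    univ.filter fun q => (q.1 : ℕ) < q.2 ∧ ¬ ∃ s ≤ dp p q.2, p^[s] q.2 = q.1
  have hI : I.card ≤ L := by
    have := card_le_univ I
    rwa [Fintype.card_prod, Fintype.card_fin] at this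
  obtain ⟨ω, hω⟩ := exists_avoid (L := L) (N := N) (by omega) I hI (by
      intro q hq heq
      have := (mem_filter.1 hq).2.1
      rw [heq] at this
      exact lt_irrefl _ this)
    (fun q ω => st p fm x0 ω q.1 (Fin.last r) = st p fm x0 ω q.2 (Fin.last r) ∨
      G.Adj (st p fm x0 ω q.1 (Fin.last r)) (st p fm x0 ω q.2 (Fin.last r))) (by
      rintro ⟨i, j⟩ hq ω P hP
      obtain ⟨-, hij, hanc⟩ := mem_filter.1 hq
      simp only at hij hanc hP
      have hjM : (j : ℕ) ≤ M := by omega
      have hiM : (i : ℕ) ≤ M := by omega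
      have hi0 : 1 ≤ (i : ℕ) := by
        by_contra h0
        refine hanc ⟨dp p j, le_rfl, ?_⟩
        rw [iter_dp hp]
        omega
      have hj0 : 1 ≤ (j : ℕ) := by omega
      have hpi := hp i hi0
      have hpj := hp j hj0
      have ei : Fin.ofNat (M + 1) (i : ℕ) = i := by
        ext
        simp only [Fin.ofNat]
        exact Nat.mod_eq_of_lt (by omega)
      have ej : Fin.ofNat (M + 1) (j : ℕ) = j := by
        ext
        simp only [Fin.ofNat]
        exact Nat.mod_eq_of_lt (by omega)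
      have hne : i ≠ j := fun h => by rw [h] at hij; exact lt_irrefl _ hij
      set u : Fin N → V := fm (M - dp p i) (st p fm x0 ω (p i)) with hu
      set w : Fin N → V := fm (M - dp p j) (st p fm x0 ω (p j)) with hw
      have nai : ¬ ∃ s ≤ dp p (p i), p^[s] (p i) = i := by
        rintro ⟨s, s1, s2⟩
        have := iter_le hp s (p i) s1
        omega
      have naj : ¬ ∃ s ≤ dp p (p i), p^[s] (p i) = j := by
        rintro ⟨s, s1, s2⟩
        have := iter_le hp s (p i) s1
        omega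
      have nbj : ¬ ∃ s ≤ dp p (p j), p^[s] (p j) = j := by
        rintro ⟨s, s1, s2⟩
        have := iter_le hp s (p j) s1
        omega
      have nbi : ¬ ∃ s ≤ dp p (p j), p^[s] (p j) = i := by
        rintro ⟨s, s1, s2⟩
        refine hanc ⟨s + 1, ?_, ?_⟩
        · rw [dp_pos hp hj0]
          omega
        · rw [Function.iterate_succ_apply]
          exact s2
      have key : ∀ x ∈ P, u x.1 = w x.2 ∨ G.Adj (u x.1) (w x.2) := by
        intro x hx
        have h1 := hP x hx
        rw [hvt _ i hi0, hvt _ j hj0, st_indep hp fm x0 _ j _ (p i) (by omega) naj,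
          st_indep hp fm x0 _ i _ (p i) (by omega) nai,
          st_indep hp fm x0 _ j _ (p j) (by omega) nbj,
          st_indep hp fm x0 _ i _ (p j) (by omega) nbi, ei, ej, Function.update_self,
          Function.update_of_ne hne, Function.update_self] at h1
        exact h1
      obtain ⟨u1, u2, -⟩ := hfm _ _ (hlevp ω i hi0 hiM)
      obtain ⟨w1, w2, -⟩ := hfm _ _ (hlevp ω j hj0 hjM)
      have hP1 : (P.filter fun x => u x.1 = w x.2).card ≤ N := by
        have h1 := card_le_card_of_injOn (s := P.filter fun x => u x.1 = w x.2)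
          (t := (univ : Finset (Fin N))) (fun x => x.1) (fun x _ => mem_coe.2 (mem_univ _)) (by
            rintro ⟨a, b⟩ hx ⟨a', b'⟩ hy (heq : a = a')
            have h2 := (mem_filter.1 (mem_coe.1 hx)).2
            have h3 := (mem_filter.1 (mem_coe.1 hy)).2
            simp only at h2 h3
            rw [heq, h3] at h2
            rw [heq, w1 h2])
        rwa [card_univ, Fintype.card_fin] at h1
      have hP2 : 2 * L * (P.filter fun x => G.Adj (u x.1) (w x.2)).card < N ^ 2 := by
        refine hN1 N (by omega) (fun a b => G.Adj (u a) (w b)) ?_ _ fun x hx => (mem_filter.1 hx).2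
        rintro ⟨A, B, hA, hB, hAB⟩
        exact hC.elim A B hA hB u w (fun a _ b _ hab => u1 hab) (fun a _ b _ hab => w1 hab)
          (fun a _ b _ hab => u2 a b hab) (fun a _ b _ hab => w2 a b hab) hAB
      have hP3 : P.card ≤ (P.filter fun x => u x.1 = w x.2).card +
          (P.filter fun x => G.Adj (u x.1) (w x.2)).card := by
        refine (card_le_card ?_).trans (card_union_le _ _)
        intro x hx
        rw [mem_union, mem_filter, mem_filter]
        rcases key x hx with h | h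
        · exact Or.inl ⟨hx, h⟩
        · exact Or.inr ⟨hx, h⟩
      have h5 : 2 * L * N ≤ N * N := Nat.mul_le_mul_right N (by omega)
      have h6 : 2 * (L * P.card) < 2 * N ^ 2 := by
        calc 2 * (L * P.card) = 2 * L * P.card := by ring
          _ ≤ 2 * L * ((P.filter fun x => u x.1 = w x.2).card +
            (P.filter fun x => G.Adj (u x.1) (w x.2)).card) := Nat.mul_le_mul_left _ hP3
          _ = 2 * L * (P.filter fun x => u x.1 = w x.2).card +
            2 * L * (P.filter fun x => G.Adj (u x.1) (w x.2)).card := by ring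
          _ < 2 * L * N + N ^ 2 := Nat.add_lt_add_of_le_of_lt (Nat.mul_le_mul_left _ hP1) hP2
          _ ≤ 2 * N ^ 2 := by rw [sq]; omega
      exact Nat.lt_of_mul_lt_mul_left h6)
  -- the embedding
  have key : ∀ i j, i < j → j ≤ M →
      st p fm x0 ω i (Fin.last r) ≠ st p fm x0 ω j (Fin.last r) ∧
      (G.Adj (st p fm x0 ω i (Fin.last r)) (st p fm x0 ω j (Fin.last r)) ↔ p j = i) := by
    intro i j hij hjM
    have hj0 : 1 ≤ j := by omega
    have hd := dp_le hp j
    have hdj := dp_pos hp hj0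
    have hind := (hlev ω j hjM).ind
    by_cases hpj : p j = i
    · have h1 := st_entry hp fm x0 ω 1 j (by omega) (by omega)
      simp only [Function.iterate_one] at h1
      have h2 := hind.1 ⟨r - 1, by omega⟩
      have e1 : (⟨r - 1, by omega⟩ : Fin r).castSucc = ⟨r - 1, by omega⟩ := rfl
      have e2 : (⟨r - 1, by omega⟩ : Fin r).succ = Fin.last r := by
        ext
        simp
        omega
      rw [e1, e2, h1, hpj] at h2
      exact ⟨(hD _ _ h2).ne, fun _ => hpj, fun _ => hD _ _ h2⟩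
    · by_cases hanc : ∃ s ≤ dp p j, p^[s] j = i
      · obtain ⟨s, s1, s2⟩ := hanc
        have hs2 : 2 ≤ s := by
          by_contra h1
          have : s = 0 ∨ s = 1 := by omega
          rcases this with rfl | rfl
          · simp only [Function.iterate_zero, id] at s2
            omega
          · simp only [Function.iterate_one] at s2
            exact hpj s2
        have h1 := st_entry hp fm x0 ω s j s1 (by omega)
        have h2 := hind.2 ⟨r - s, by omega⟩ (Fin.last r) (by simp; omega)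
        rw [h1, s2] at h2
        exact ⟨h2.1, fun h3 => absurd h3 h2.2, fun h3 => absurd h3 hpj⟩
      · have h1 := hω (⟨i, by omega⟩, ⟨j, by omega⟩) (mem_filter.2 ⟨mem_univ _, hij, hanc⟩)
        simp only [not_or] at h1
        exact ⟨h1.1, fun h3 => absurd h3 h1.2, fun h3 => absurd h3 hpj⟩
  refine ⟨⟨⟨fun v => st p fm x0 ω (f v) (Fin.last r), fun u v huv => ?_⟩, fun {u v} => ?_⟩⟩
  · simp only at huv
    rcases lt_trichotomy (f u) (f v) with h | h | h
    · exact absurd huv (key _ _ h (f2 v)).1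
    · exact f1 h
    · exact absurd huv.symm (key _ _ h (f2 u)).1
  · show G.Adj (st p fm x0 ω (f u) (Fin.last r)) (st p fm x0 ω (f v) (Fin.last r)) ↔ T.Adj u v
    rcases lt_trichotomy (f u) (f v) with h | h | h
    · rw [(key _ _ h (f2 v)).2, f4 u v h]
    · have : u = v := f1 h
      subst this
      exact ⟨fun h => absurd h (G.loopless.irrefl _), fun h => absurd h (T.loopless.irrefl _)⟩
    · rw [G.adj_comm, T.adj_comm, (key _ _ h (f2 u)).2, f4 v u h]

end Pool.Agent.T9h70.Bic
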