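import Pool.Agent.T9h70.Bic.Path
import Pool.Agent.T9h70.Bic.Tree
import Pool.Agent.T9h70.Bic.Add
import Pool.Agent.H367R3.GSForest

set_option autoImplicit false

namespace Pool.Agent.T9h70.Bic

open Finset Pool.Agent.T9h70.Box Pool.Agent.T9h70.Chd

variable {V : Type} {k : ℕ}

/-- the small set of a window -/
def SW (C : Fin k → SimpleGraph V) (D : V → V → Prop) (G : SimpleGraph V) (N M : ℕ) {r : ℕ}
    (x : Fin (r + 1) → V) : Set V :=
  {z | Ind D G x ∧ Ind D G (shf x z) ∧
    ∀ (t : Fin k) (j : Fin (M + 1)), LevW D G (C t) N j x → LevW D G (C t) N j (shf x z)}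

theorem sw_small [Finite V] {C : Fin k → SimpleGraph V} {D : V → V → Prop} {G : SimpleGraph V}
    {N M w R r : ℕ} (hG : ∀ x y, x ≠ y → (G.Adj x y ↔ ∀ i, (C i).Adj x y))
    (hw : ∀ S : Finset V, G.IsClique (S : Set V) → S.card < w)
    (hR : ∀ Z : Finset V, R ≤ Z.card →
      (∃ t, ∃ S ⊆ Z, S.card = N ∧ ∀ x ∈ S, ∀ y ∈ S, x ≠ y → ¬ (C t).Adj x y) ∨
      (∃ S ⊆ Z, S.card = w ∧ ∀ x ∈ S, ∀ y ∈ S, x ≠ y → ∀ i, (C i).Adj x y))
    (hLev : ∀ t, ∀ x : Fin (r + 1) → V, ¬ LevW D G (C t) N M x) (x : Fin (r + 1) → V) :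
    (SW C D G N M x).ncard ≤ R := by
  classical
  by_contra hcon
  push Not at hcon
  have hfin : (SW C D G N M x).Finite := Set.toFinite _
  rw [Set.ncard_eq_toFinset_card _ hfin] at hcon
  rcases hR hfin.toFinset hcon.le with ⟨t, S, hS, h1, h2⟩ | ⟨S, hS, h1, h2⟩
  · have hS' : ∀ z ∈ S, z ∈ SW C D G N M x := fun z hz => by
      have := hS hz
      rwa [Set.Finite.mem_toFinset] at this
    have hne : hfin.toFinset.Nonempty := card_pos.1 (by omega)
    obtain ⟨z0, hz0⟩ := hne
    rw [Set.Finite.mem_toFinset] at hz0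
    let eS := S.equivFinOfCardEq h1
    have hall : ∀ j ≤ M, LevW D G (C t) N j x := by
      intro j
      induction j with
      | zero => exact fun _ => hz0.1
      | succ j ih =>
        intro hj
        refine ⟨hz0.1, fun a => (eS.symm a : V), ?_, ?_, ?_⟩
        · intro a b hab
          exact eS.symm.injective (Subtype.ext hab)
        · intro a b hab
          refine h2 _ (eS.symm a).2 _ (eS.symm b).2 fun h => hab ?_
          exact eS.symm.injective (Subtype.ext h)
        · intro a
          exact (hS' _ (eS.symm a).2).2.2 t ⟨j, by omega⟩ (ih (by omega))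
    exact hLev t x (hall M le_rfl)
  · have := hw S (by
      intro a ha b hb hab
      exact (hG a b hab).2 (h2 a ha b hb hab))
    omega

/-- the small set of a path -/
def SP (C : Fin k → SimpleGraph V) (D : V → V → Prop) (G : SimpleGraph V) (N M r : ℕ)
    (n : ℕ) (p : Fin (n + 1) → V) : Set V :=
  ⋃ τ ∈ (univ : Finset (Fin (r + 1) → Fin (n + 1))), SW C D G N M (fun i => p (τ i))

theorem sp_small [Finite V] {C : Fin k → SimpleGraph V} {D : V → V → Prop} {G : SimpleGraph V}
    {N M R r : ℕ} (h : ∀ x : Fin (r + 1) → V, (SW C D G N M x).ncard ≤ R) (n : ℕ)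
    (p : Fin (n + 1) → V) : (SP C D G N M r n p).ncard ≤ (n + 1) ^ (r + 1) * R := by
  refine (Finset.set_ncard_biUnion_le _ _).trans ?_
  refine (sum_le_sum fun τ _ => h _).trans ?_
  rw [sum_const, card_univ, Fintype.card_fun, Fintype.card_fin, Fintype.card_fin, smul_eq_mul]

/-- the type of the patterns -/
def Pat (k M r n : ℕ) : Type :=
  (Fin (n + 1) → Fin (n + 1) → Prop) × (Fin k → Fin (n + 1) → Fin (n + 1) → Prop) ×
    ((Fin (r + 1) → Fin (n + 1)) → Fin k → Fin (M + 1) → Prop)

noncomputable instance (k M r n : ℕ) : Fintype (Pat k M r n) := by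
  classical
  exact inferInstanceAs (Fintype ((Fin (n + 1) → Fin (n + 1) → Prop) ×
    (Fin k → Fin (n + 1) → Fin (n + 1) → Prop) ×
    ((Fin (r + 1) → Fin (n + 1)) → Fin k → Fin (M + 1) → Prop)))

/-- the pattern of a path -/
def pat (C : Fin k → SimpleGraph V) (D : V → V → Prop) (G : SimpleGraph V) (N M r n : ℕ)
    (p : Fin (n + 1) → V) : Pat k M r n :=
  (fun a b => G.Adj (p a) (p b), fun i a b => (C i).Adj (p a) (p b),
    fun τ t j => LevW D G (C t) N j (fun i : Fin (r + 1) => p (τ i)))

noncomputable instance (k M : ℕ) : Fintype (Fin k → Fin (M + 1) → Prop) := by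
  classical
  infer_instance

/-- the directed graph of the edges has bounded chromatic number -/
theorem col_main [Finite V] {C : Fin k → SimpleGraph V} {D : V → V → Prop} {G : SimpleGraph V}
    (e : V → ℕ) {N M w R r n h : ℕ}
    (hDdef : ∀ x y, D x y ↔ G.Adj x y ∧ e x < e y)
    (hC : ∀ i, NoBic G (C i) h)
    (hG : ∀ x y, x ≠ y → (G.Adj x y ↔ ∀ i, (C i).Adj x y))
    (hw : ∀ S : Finset V, G.IsClique (S : Set V) → S.card < w)
    (hSW : ∀ x : Fin (r + 1) → V, (SW C D G N M x).ncard ≤ R)
    (hn : ∀ (S : ℕ → Prop) (Si : Fin k → ℕ → Prop)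
      (col : (Fin r → ℕ) → (Fin k → Fin (M + 1) → Prop)), S 1 →
    (∀ l, 1 ≤ l → l ≤ n → (S l ↔ ∀ i, Si i l)) →
    (∀ l : ℕ → ℕ, (∀ i ≤ r, 1 ≤ l i ∧ S (l i)) →
      (∀ i j, 2 ≤ j → j ≤ r → i + j ≤ r + 1 → ¬ S (∑ t ∈ Ico i (i + j), l t)) →
      ∑ t ∈ range (r + 1), l t ≤ n → col (fun i => l i) ≠ col (fun i => l (i + 1))) →
    (∀ Q : Finset ℕ, (∀ a ∈ Q, a ≤ n) → w ≤ Q.card → ∃ a ∈ Q, ∃ b ∈ Q, a < b ∧ ¬ S (b - a)) →
    (∀ (i : Fin k) (X Y : Finset ℕ), X.card = h → Y.card = h → (∀ a ∈ X, a ≤ n) →
      (∀ a ∈ Y, a ≤ n) → (∀ a ∈ X, ∀ b ∈ X, a < b → ¬ Si i (b - a)) →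
      (∀ a ∈ Y, ∀ b ∈ Y, a < b → ¬ Si i (b - a)) →
      ¬ ∀ a ∈ X, ∀ b ∈ Y, a < b ∧ S (b - a)) → False) :
    Col D (up (fun b => (b + 1) ^ (r + 1) * R) n (Fintype.card (Pat k M r n))) := by
  classical
  cases nonempty_fintype V
  by_contra hcon
  obtain ⟨v, v1, v2, v3⟩ := hom_path (D := D) (S := SP C D G N M r)
    (fun x hx => lt_irrefl _ ((hDdef x x).1 hx).2) (fun b => (b + 1) ^ (r + 1) * R)
    (fun b p => sp_small hSW b p) n (pat C D G N M r n) hcon
  -- the shifts by one
  have sG : ∀ a b, a ≤ n → b ≤ n → (G.Adj (v a) (v b) ↔ G.Adj (v (a + 1)) (v (b + 1))) := by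
    intro a b ha hb
    have := congrFun (congrFun (congrArg (fun P : Pat k M r n => P.1) v2) ⟨a, by omega⟩)
      ⟨b, by omega⟩
    simpa [pat] using this
  have sC : ∀ i a b, a ≤ n → b ≤ n →
      ((C i).Adj (v a) (v b) ↔ (C i).Adj (v (a + 1)) (v (b + 1))) := by
    intro i a b ha hb
    have := congrFun (congrFun (congrFun (congrArg (fun P : Pat k M r n => P.2.1) v2) i)
      ⟨a, by omega⟩) ⟨b, by omega⟩
    simpa [pat] using this
  have sL : ∀ (τ : Fin (r + 1) → ℕ), (∀ i, τ i ≤ n) → ∀ (t : Fin k) (j : Fin (M + 1)),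
      (LevW D G (C t) N j (fun i => v (τ i)) ↔ LevW D G (C t) N j (fun i => v (τ i + 1))) := by
    intro τ hτ t j
    have := congrFun (congrFun (congrFun (congrArg (fun P : Pat k M r n => P.2.2) v2)
      (fun i => ⟨τ i, Nat.lt_succ_of_le (hτ i)⟩)) t) j
    simpa [pat] using this
  -- the distances
  have dG : ∀ a l, a + l ≤ n + 1 → (G.Adj (v a) (v (a + l)) ↔ G.Adj (v 0) (v l)) := by
    intro a
    induction a with
    | zero => intro l _; rw [Nat.zero_add]
    | succ a ih =>
      intro l hl
      rw [← ih l (by omega), sG a (a + l) (by omega) (by omega)]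
      have e1 : a + 1 + l = a + l + 1 := by omega
      rw [e1]
  have dC : ∀ i a l, a + l ≤ n + 1 → ((C i).Adj (v a) (v (a + l)) ↔ (C i).Adj (v 0) (v l)) := by
    intro i a
    induction a with
    | zero => intro l _; rw [Nat.zero_add]
    | succ a ih =>
      intro l hl
      rw [← ih l (by omega), sC i a (a + l) (by omega) (by omega)]
      have e1 : a + 1 + l = a + l + 1 := by omega
      rw [e1]
  have dL : ∀ (d : ℕ) (τ : Fin (r + 1) → ℕ), (∀ i, τ i + d ≤ n + 1) →
      ∀ (t : Fin k) (j : Fin (M + 1)),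
      (LevW D G (C t) N j (fun i => v (τ i)) ↔ LevW D G (C t) N j (fun i => v (τ i + d))) := by
    intro d
    induction d with
    | zero => intro τ _ t j; exact Iff.rfl
    | succ d ih =>
      intro τ hτ t j
      rw [ih τ (fun i => by have := hτ i; omega) t j,
        sL (fun i => τ i + d) (fun i => by have := hτ i; omega) t j]
      exact Iff.rfl
  have emono : ∀ a b, a < b → b ≤ n + 1 → e (v a) < e (v b) := by
    intro a b hab
    induction b, hab using Nat.le_induction with
    | base => intro hb; exact ((hDdef _ _).1 (v1 a (by omega))).2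
    | succ b hab ih =>
      intro hb
      exact (ih (by omega)).trans ((hDdef _ _).1 (v1 b (by omega))).2
  have vinj : ∀ a b, a ≤ n + 1 → b ≤ n + 1 → v a = v b → a = b := by
    intro a b ha hb hab
    rcases lt_trichotomy a b with h1 | h1 | h1
    · have := emono a b h1 hb
      rw [hab] at this
      exact absurd this (lt_irrefl _)
    · exact h1
    · have := emono b a h1 ha
      rw [hab] at this
      exact absurd this (lt_irrefl _)
  -- the windows given by gaps
  have hP : ∀ (l : ℕ → ℕ) (i : ℕ), i ≤ r →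
      (∑ s : Fin r, if (s : ℕ) < i then l s else 0) = ∑ s ∈ range i, l s := by
    intro l i hi
    rw [Fin.sum_univ_eq_sum_range (fun s => if s < i then l s else 0) r, ← sum_filter]
    congr 1
    ext s
    rw [mem_filter, mem_range, mem_range]
    omega
  refine hn (fun l => G.Adj (v 0) (v l)) (fun i l => (C i).Adj (v 0) (v l))
    (fun g t j => LevW D G (C t) N j
      (fun i : Fin (r + 1) => v (∑ s : Fin r, if (s : ℕ) < i then g s else 0)))
    ((hDdef _ _).1 (v1 0 (Nat.zero_le _))).1 ?_ ?_ ?_ ?_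
  · intro l hl hln
    refine hG _ _ fun h0 => ?_
    have := vinj 0 l (by omega) (by omega) h0
    omega
  · intro l hl hblock htot heq
    set P : ℕ → ℕ := fun i => ∑ t ∈ range i, l t with hPdef
    have hPs : ∀ i, P (i + 1) = P i + l i := fun i => sum_range_succ _ _
    have hPm : ∀ i j, i ≤ j → P i ≤ P j := by
      intro i j hij
      exact sum_le_sum_of_subset (range_subset_range.2 hij)
    have hPIco : ∀ i j, P (i + j) = P i + ∑ t ∈ Ico i (i + j), l t := by
      intro i j
      rw [hPdef]
      exact (sum_range_add_sum_Ico l (by omega)).symm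
    have hPn : P (r + 1) ≤ n := htot
    have hPlt : ∀ i j, i < j → j ≤ r + 1 → P i < P j := by
      intro i j hij hj
      have h1 := hPm (i + 1) j hij
      have h2 := hPs i
      have h3 := (hl i (by omega)).1
      omega
    have hind : ∀ d ≤ 1, Ind D G (fun i : Fin (r + 1) => v (P (i + d))) := by
      intro d hd
      constructor
      · intro i
        simp only [Fin.val_castSucc, Fin.val_succ]
        have e1 : (i : ℕ) + 1 + d = (i + d) + 1 := by omega
        rw [e1, hDdef]
        have h2 := hPm (i + d + 1) (r + 1) (by omega)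
        refine ⟨?_, emono _ _ (hPlt _ _ (by omega) (by omega)) (by omega)⟩
        rw [hPs] at h2 ⊢
        rw [dG _ _ (by omega)]
        exact (hl (i + d) (by omega)).2
      · intro i j hij
        have h2 := hPlt (i + d) (j + d) (by omega) (by omega)
        have h3 := hPm (j + d) (r + 1) (by omega)
        constructor
        · intro h0
          have := vinj _ _ (by omega) (by omega) h0
          omega
        · show ¬ G.Adj (v (P (i + d))) (v (P (j + d)))
          have e1 : (j : ℕ) + d = (i + d) + (j - i) := by omega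
          rw [e1, hPIco (i + d) (j - i)] at h3
          rw [e1, hPIco (i + d) (j - i), dG _ _ (by omega)]
          exact hblock (i + d) (j - i) (by omega) (by omega) (by omega)
    have hshf : shf (fun i : Fin (r + 1) => v (P (i + 0))) (v (P (r + 1))) =
        fun i : Fin (r + 1) => v (P (i + 1)) := by
      funext i
      refine Fin.lastCases ?_ (fun j => ?_) i
      · rw [shf_last]
        rfl
      · rw [shf_castSucc]
        rfl
    obtain ⟨b, hb⟩ : ∃ b, P (r + 1) = b + 1 := by
      have := hPlt r (r + 1) (by omega) le_rfl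
      exact ⟨P (r + 1) - 1, by omega⟩
    have hPr : ∀ i : Fin (r + 1), P i < b + 1 := fun i => by
      have := hPlt i (r + 1) i.2 le_rfl
      omega
    refine v3 b (by omega) ?_
    unfold SP
    simp only [mem_univ, Set.iUnion_true, Set.mem_iUnion]
    refine ⟨fun i => ⟨P i, hPr i⟩, ?_⟩
    show v (b + 1) ∈ SW C D G N M (fun i : Fin (r + 1) => v (P i))
    rw [← hb]
    refine ⟨hind 0 (by omega), ?_, fun t j hlev => ?_⟩
    · have := hind 1 le_rfl
      rw [← hshf] at this
      exact this
    · have h1 : LevW D G (C t) N j (fun i : Fin (r + 1) => v (P (i + 1))) := by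
        have h2 := congrFun (congrFun heq t) j
        simp only at h2
        have h3 : (fun i : Fin (r + 1) => v (∑ s : Fin r, if (s : ℕ) < i then l s else 0)) =
            fun i : Fin (r + 1) => v (P i) := by
          funext i
          rw [hP l i (by omega)]
        have h4 : (fun i : Fin (r + 1) =>
            v (∑ s : Fin r, if (s : ℕ) < i then l ((s : ℕ) + 1) else 0)) =
            fun i : Fin (r + 1) => v (∑ s ∈ range i, l (s + 1)) := by
          funext i
          rw [hP (fun s => l (s + 1)) i (by omega)]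
        rw [h3, h4] at h2
        rw [h2] at hlev
        have h5 : ∀ i : Fin (r + 1), P (i + 1) = ∑ s ∈ range i, l (s + 1) + l 0 := fun i =>
          sum_range_succ' _ _
        rw [dL (l 0) (fun i => ∑ s ∈ range i, l (s + 1)) (fun i => by
          rw [← h5]
          have := hPm (i + 1) (r + 1) (by omega)
          omega) t j] at hlev
        have h6 : (fun i : Fin (r + 1) => v (P (i + 1))) =
            fun i : Fin (r + 1) => v (∑ s ∈ range i, l (s + 1) + l 0) := by
          funext i
          rw [h5]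
        rw [h6]
        exact hlev
      rw [← hshf] at h1
      exact h1
  · intro Q hQ hQw
    by_contra hno
    push Not at hno
    have hclq : G.IsClique ((Q.image v : Finset V) : Set V) := by
      intro x hx y hy hxy
      rw [mem_coe, mem_image] at hx hy
      obtain ⟨a, ha, rfl⟩ := hx
      obtain ⟨b, hb, rfl⟩ := hy
      have key : ∀ a ∈ Q, ∀ b ∈ Q, a < b → G.Adj (v a) (v b) := by
        intro a ha b hb hab
        have h1 := hno a ha b hb hab
        have h2 := hQ b hb
        have h3 := dG a (b - a) (by omega)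
        have e1 : a + (b - a) = b := by omega
        rw [e1] at h3
        exact h3.2 h1
      rcases lt_trichotomy a b with h1 | h1 | h1
      · exact key a ha b hb h1
      · exact absurd (by rw [h1]) hxy
      · exact (key b hb a ha h1).symm
    have h1 := hw _ hclq
    rw [card_image_of_injOn (by
      intro a ha b hb hab
      exact vinj a b (by have := hQ a ha; omega) (by have := hQ b hb; omega) hab)] at h1
    omega
  · intro i X Y hX hY hXn hYn hX' hY' hXY
    have nadj : ∀ Z : Finset ℕ, (∀ a ∈ Z, a ≤ n) →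
        (∀ a ∈ Z, ∀ b ∈ Z, a < b → ¬ (C i).Adj (v 0) (v (b - a))) →
        ∀ a ∈ Z, ∀ b ∈ Z, a ≠ b → ¬ (C i).Adj (v a) (v b) := by
      intro Z hZ hZ' a ha b hb hab
      have key : ∀ a ∈ Z, ∀ b ∈ Z, a < b → ¬ (C i).Adj (v a) (v b) := by
        intro a ha b hb hab
        have h2 := hZ b hb
        have h3 := dC i a (b - a) (by omega)
        have e1 : a + (b - a) = b := by omega
        rw [e1] at h3
        rw [h3]
        exact hZ' a ha b hb hab
      rcases lt_or_gt_of_ne hab with h1 | h1
      · exact key a ha b hb h1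
      · exact fun h2 => key b hb a ha h1 h2.symm
    refine (hC i).elim X Y hX hY v v ?_ ?_ (nadj X hXn hX') (nadj Y hYn hY') ?_
    · intro a ha b hb hab
      exact vinj a b (by have := hXn a ha; omega) (by have := hXn b hb; omega) hab
    · intro a ha b hb hab
      exact vinj a b (by have := hYn a ha; omega) (by have := hYn b hb; omega) hab
    · intro a ha b hb
      obtain ⟨h1, h2⟩ := hXY a ha b hb
      have h4 := hYn b hb
      have h3 := dG a (b - a) (by omega)
      have e1 : a + (b - a) = b := by omega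
      rw [e1] at h3
      exact h3.2 h2

/-- the Gyárfás–Sumner conjecture for graphs `G` which are intersections of `k` graphs `C i`, such
that there are no two sets of size `h` which are stable in some `C i` and complete in `G` -/
theorem gs_nobic (k h m : ℕ) (F : SimpleGraph (Fin m)) (hF : F.IsAcyclic) : ∃ g : ℕ → ℕ,
    ∀ (V : Type) [Finite V] (G : SimpleGraph V) (C : Fin k → SimpleGraph V),
      (∀ i, NoBic G (C i) h) →
      (∀ x y, x ≠ y → (G.Adj x y ↔ ∀ i, (C i).Adj x y)) → ¬ F.IsIndContained G →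
      G.Colorable (g G.cliqueNum) := by
  classical
  obtain ⟨T, hT, ⟨ι⟩⟩ := Pool.Agent.H367R3.forest_in_tree F hF
  obtain ⟨N, hN⟩ := tree_of_lev m h T hT
  choose R hR using fun w => ram_graphs k N w
  choose n hn using fun w => additive k h (m + 1) w (Nat.succ_pos m) (Fin k → Fin (m + 1) → Prop)
  refine ⟨fun w => up (fun b => (b + 1) ^ (m + 1 + 1) * R (w + 1)) (n (w + 1))
    (Fintype.card (Pat k m (m + 1) (n (w + 1)))), fun V _ G C hC hGC hFG => ?_⟩
  cases nonempty_fintype V
  have hTG : ¬ T.IsIndContained G := by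
    rintro ⟨φ⟩
    exact hFG ⟨ι.trans φ⟩
  set e : V → ℕ := fun v => (Fintype.equivFin V v : ℕ) with he
  have hw : ∀ S : Finset V, G.IsClique (S : Set V) → S.card < G.cliqueNum + 1 :=
    fun S hS => Nat.lt_succ_of_le hS.card_le_cliqueNum
  obtain ⟨c, c1, c2⟩ := col_main (C := C) (D := fun x y => G.Adj x y ∧ e x < e y) (G := G) e
    (N := N) (M := m) (w := G.cliqueNum + 1) (R := R (G.cliqueNum + 1)) (r := m + 1)
    (n := n (G.cliqueNum + 1)) (h := h) (fun x y => Iff.rfl) hC hGC hw
    (fun x => sw_small hGC hw (hR (G.cliqueNum + 1) V C) (fun t x hx =>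
      hTG (hN N le_rfl V _ G (C t) (m + 1) le_rfl (fun x y h => h.1) (hC t) x hx)) x)
    (hn (G.cliqueNum + 1))
  refine ⟨SimpleGraph.Coloring.mk (fun v => ⟨c v, c1 v⟩) ?_⟩
  intro x y hxy heq
  have h1 : c x = c y := congrArg Fin.val heq
  rcases lt_trichotomy (e x) (e y) with h | h | h
  · exact c2 x y ⟨hxy, h⟩ h1
  · have : x = y := (Fintype.equivFin V).injective (Fin.ext h)
    exact hxy.ne this
  · exact c2 y x ⟨hxy.symm, h⟩ h1.symm

end Pool.Agent.T9h70.Bic
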