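import Pool.Agent.T9h70.Chd.Path

set_option autoImplicit false

namespace Pool.Agent.T9h70.Bic

open Finset Pool.Agent.T9h70.Box Pool.Agent.T9h70.Chd

/-! ### paths avoiding small sets, with a shift invariant pattern -/

variable {V : Type}

/-- the good paths with `n + 1` vertices: no vertex is in the small set of the vertices before it -/
def Good (D : V → V → Prop) (S : (n : ℕ) → (Fin (n + 1) → V) → Set V) :
    (n : ℕ) → (Fin (n + 1) → V) → Prop
  | 0, _ => True
  | n + 1, v => Good D S n (Fin.init v) ∧ Good D S n (Fin.tail v) ∧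
      D (v (Fin.last n).castSucc) (v (Fin.last (n + 1))) ∧
      v (Fin.last (n + 1)) ∉ S n (Fin.init v)

/-- `q` continues `p` -/
def Ov (D : V → V → Prop) (S : (n : ℕ) → (Fin (n + 1) → V) → Set V) (n : ℕ)
    (p q : Fin (n + 1) → V) : Prop :=
  Good D S n p ∧ Good D S n q ∧ (∀ i : Fin n, p i.succ = q i.castSucc) ∧
    D (p (Fin.last n)) (q (Fin.last n))

def Bad (D : V → V → Prop) (S : (n : ℕ) → (Fin (n + 1) → V) → Set V) (n : ℕ)
    (p q : Fin (n + 1) → V) : Prop :=
  Ov D S n p q ∧ q (Fin.last n) ∈ S n p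

def Arc (D : V → V → Prop) (S : (n : ℕ) → (Fin (n + 1) → V) → Set V) (n : ℕ)
    (p q : Fin (n + 1) → V) : Prop :=
  Ov D S n p q ∧ q (Fin.last n) ∉ S n p

variable {D : V → V → Prop} {S : (n : ℕ) → (Fin (n + 1) → V) → Set V}

theorem Arc.tail {n : ℕ} {p q : Fin (n + 1) → V} (h : Arc D S n p q) :
    Fin.tail (Fin.snoc (α := fun _ => V) p (q (Fin.last n))) = q := by
  funext i
  refine Fin.lastCases ?_ (fun j => ?_) i
  · show Fin.snoc (α := fun _ => V) p (q (Fin.last n)) (Fin.last n).succ = _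
    rw [Fin.succ_last, Fin.snoc_last]
  · show Fin.snoc (α := fun _ => V) p (q (Fin.last n)) j.castSucc.succ = _
    rw [Fin.succ_castSucc, Fin.snoc_castSucc]
    exact h.1.2.2.1 j

theorem Arc.good {n : ℕ} {p q : Fin (n + 1) → V} (h : Arc D S n p q) :
    Good D S (n + 1) (Fin.snoc (α := fun _ => V) p (q (Fin.last n))) := by
  refine ⟨?_, ?_, ?_, ?_⟩
  · rw [Fin.init_snoc]
    exact h.1.1
  · rw [h.tail]
    exact h.1.2.1
  · rw [Fin.snoc_castSucc, Fin.snoc_last]
    exact h.1.2.2.2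
  · rw [Fin.init_snoc, Fin.snoc_last]
    exact h.2

/-- a colouring of the line digraph gives a colouring of the digraph -/
theorem col_line {n c : ℕ} (h : Col (Ov D S (n + 1)) c) : Col (Arc D S n) (2 ^ c) := by
  classical
  obtain ⟨κ, k1, k2⟩ := h
  let K : (Fin (n + 1) → V) → Finset (Fin c) := fun p =>
    univ.filter fun a => ∃ v, Good D S (n + 1) v ∧ Fin.init v = p ∧ κ v = a
  have := col_of_type (Arc D S n) K (fun p q hpq heq => by
    set v := Fin.snoc (α := fun _ => V) p (q (Fin.last n)) with hv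
    have hg : Good D S (n + 1) v := hpq.good
    have ht : Fin.tail v = q := hpq.tail
    have hi : Fin.init v = p := Fin.init_snoc _ _
    have hmem : (⟨κ v, k1 v⟩ : Fin c) ∈ K p := by
      simp only [K, mem_filter, mem_univ, true_and]
      exact ⟨v, hg, hi, rfl⟩
    rw [heq] at hmem
    simp only [K, mem_filter, mem_univ, true_and] at hmem
    obtain ⟨v', g', i', e'⟩ := hmem
    refine k2 v v' ⟨hg, g', ?_, ?_⟩ e'.symm
    · intro i
      have h1 : v i.succ = q i := congrFun ht i
      have h2 : v' i.castSucc = q i := congrFun i' i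
      rw [h1, h2]
    · have h1 : v (Fin.last (n + 1)) = q (Fin.last n) := by rw [hv, Fin.snoc_last]
      have h2 : v' (Fin.last n).castSucc = q (Fin.last n) := congrFun i' (Fin.last n)
      have h3 := g'.2.2.1
      rw [h2] at h3
      rw [h1]
      exact h3)
  simpa using this

theorem col_bad [Fintype V] (hirr : ∀ x, ¬ D x x) (n M : ℕ) (hS : ∀ p, (S n p).ncard ≤ M) :
    Col (Bad D S n) (2 * M + 1) := by
  classical
  refine col_outdeg _ (fun p hp => hirr _ hp.1.2.2.2) _ fun p => ?_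
  have hsub : {q | Bad D S n p q} ⊆ (fun x : V => fun j : Fin (n + 1) =>
      if h : (j : ℕ) < n then p (Fin.succ ⟨j, h⟩) else x) '' (S n p) := by
    rintro q ⟨h1, hi⟩
    refine ⟨q (Fin.last n), hi, ?_⟩
    funext j
    refine Fin.lastCases ?_ (fun j => ?_) j
    · simp
    · simp only [Fin.val_castSucc, Fin.is_lt, dite_true, Fin.eta]
      exact h1.2.2.1 j
  exact (Set.ncard_le_ncard hsub (Set.toFinite _)).trans
    ((Set.ncard_image_le (Set.toFinite _)).trans (hS p))

theorem col_ov [Fintype V] (hirr : ∀ x, ¬ D x x) (n M : ℕ) (hS : ∀ p, (S n p).ncard ≤ M)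
    (c : ℕ) (h : Col (Arc D S n) c) : Col (Ov D S n) (c * (2 * M + 1)) := by
  classical
  refine (h.prod (col_bad hirr n M hS)).mono ?_ le_rfl
  intro p q hpq
  by_cases h1 : q (Fin.last n) ∈ S n p
  · exact Or.inr ⟨hpq, h1⟩
  · exact Or.inl ⟨hpq, h1⟩

/-- the bound -/
def up (M : ℕ → ℕ) : ℕ → ℕ → ℕ
  | 0, c => c
  | n + 1, c => up M n (2 ^ c * (2 * M n + 1))

theorem col_up [Fintype V] (hirr : ∀ x, ¬ D x x) (M : ℕ → ℕ) (hS : ∀ n p, (S n p).ncard ≤ M n) :
    ∀ (n c : ℕ), Col (Ov D S n) c → Col D (up M n c) := by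
  intro n
  induction n with
  | zero =>
    rintro c ⟨κ, k1, k2⟩
    refine ⟨fun v => κ fun _ => v, fun v => k1 _, fun x y hxy => ?_⟩
    exact k2 _ _ ⟨trivial, trivial, fun i => i.elim0, hxy⟩
  | succ n ih =>
    intro c hc
    exact ih _ (col_ov hirr n (M n) (hS n) _ (col_line hc))

theorem Good.adj : ∀ {n : ℕ} {v : Fin (n + 1) → V}, Good D S n v → ∀ (a : ℕ) (ha : a < n),
    D (v ⟨a, by omega⟩) (v ⟨a + 1, by omega⟩)
  | 0, _, _, a, ha => absurd ha (Nat.not_lt_zero a)
  | n + 1, v, h, a, ha => by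
    rcases Nat.lt_succ_iff_lt_or_eq.1 ha with h1 | h1
    · exact Good.adj h.1 a h1
    · subst h1
      exact h.2.2.1

theorem Good.avoid : ∀ {n : ℕ} {v : Fin (n + 1) → V}, Good D S n v → ∀ (b : ℕ) (hb : b < n),
    v ⟨b + 1, by omega⟩ ∉ S b (fun i => v ⟨i, by omega⟩)
  | 0, _, _, b, hb => absurd hb (Nat.not_lt_zero b)
  | n + 1, v, h, b, hb => by
    rcases Nat.lt_succ_iff_lt_or_eq.1 hb with h1 | h1
    · exact Good.avoid h.1 b h1
    · subst h1
      exact h.2.2.2

/-- If `D` has large chromatic number, then for every pattern there is a directed path which avoids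
the small sets, such that two consecutive long pieces of it have the same pattern. -/
theorem hom_path [Fintype V] {α : Type} [Fintype α] (hirr : ∀ x, ¬ D x x) (M : ℕ → ℕ)
    (hS : ∀ n p, (S n p).ncard ≤ M n) (n : ℕ) (pat : (Fin (n + 1) → V) → α)
    (hD : ¬ Col D (up M n (Fintype.card α))) :
    ∃ v : ℕ → V, (∀ a ≤ n, D (v a) (v (a + 1))) ∧
      (pat (fun i => v i) = pat (fun i => v (i + 1))) ∧
      ∀ b < n, v (b + 1) ∉ S b (fun i => v i) := by
  classical
  obtain ⟨p, q, hpq, heq⟩ : ∃ p q : Fin (n + 1) → V, Ov D S n p q ∧ pat p = pat q := by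
    by_contra hcon
    push Not at hcon
    exact hD (col_up hirr M hS n _ (col_of_type (Ov D S n) pat fun p q hpq => hcon p q hpq))
  let v : ℕ → V := fun i => if h : i < n + 1 then p ⟨i, h⟩ else q (Fin.last n)
  have hv : ∀ (a : ℕ) (ha : a < n + 1), v a = p ⟨a, ha⟩ := fun a ha => dif_pos ha
  have hv' : ∀ (a : ℕ) (ha : a < n + 1), v (a + 1) = q ⟨a, ha⟩ := by
    intro a ha
    by_cases h : a + 1 < n + 1
    · rw [hv _ h]
      exact hpq.2.2.1 ⟨a, by omega⟩
    · obtain rfl : a = n := by omega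
      exact dif_neg h
  have e1 : (fun i : Fin (n + 1) => v i) = p := funext fun i => hv i i.2
  have e2 : (fun i : Fin (n + 1) => v (i + 1)) = q := funext fun i => hv' i i.2
  refine ⟨v, fun a ha => ?_, by rw [e1, e2, heq], fun b hb => ?_⟩
  · rcases Nat.lt_or_eq_of_le ha with h | h
    · rw [hv a (by omega), hv (a + 1) (by omega)]
      exact hpq.1.adj a h
    · subst h
      rw [hv a (by omega), hv' a (by omega)]
      exact hpq.2.2.2
  · have h1 := hpq.1.avoid b hb
    rw [hv (b + 1) (by omega)]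
    have e3 : (fun i : Fin (b + 1) => v i) = fun i : Fin (b + 1) => p ⟨i, by omega⟩ :=
      funext fun i => hv i (by omega)
    rw [e3]
    exact h1

end Pool.Agent.T9h70.Bic
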