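import Pool.Agent.H152.HR.Ramsey

set_option autoImplicit false

namespace Pool.Agent.T9h70.Bic

open Finset

/-- Ramsey's theorem for `k` graphs: a large set contains `N` vertices which are pairwise not
adjacent in one of the graphs, or `w` vertices which are pairwise adjacent in all graphs -/
theorem ram_graphs (k N w : ℕ) : ∃ R : ℕ, ∀ (V : Type) (C : Fin k → SimpleGraph V) (Z : Finset V),
    R ≤ Z.card →
    (∃ t, ∃ S ⊆ Z, S.card = N ∧ ∀ x ∈ S, ∀ y ∈ S, x ≠ y → ¬ (C t).Adj x y) ∨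
    (∃ S ⊆ Z, S.card = w ∧ ∀ x ∈ S, ∀ y ∈ S, x ≠ y → ∀ i, (C i).Adj x y) := by
  classical
  obtain ⟨R, hR⟩ := H152HR.ramsey (Option (Fin k)) 2 (max N w)
  refine ⟨max R 1, fun V C Z hZ => ?_⟩
  have hZ1 : R ≤ Z.card := (le_max_left _ _).trans hZ
  have hZ2 : 0 < Z.card := lt_of_lt_of_le Nat.zero_lt_one ((le_max_right R 1).trans hZ)
  obtain ⟨z0, hz0⟩ := card_pos.1 hZ2
  let g : ℕ → V := fun i => if h : i < Z.card then (Z.equivFin.symm ⟨i, h⟩ : V) else z0
  have hg : ∀ i, g i ∈ Z := by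
    intro i
    simp only [g]
    split_ifs with h
    · exact (Z.equivFin.symm ⟨i, h⟩).2
    · exact hz0
  have hgi : ∀ i < Z.card, ∀ j < Z.card, g i = g j → i = j := by
    intro i hi j hj h
    simp only [g, dif_pos hi, dif_pos hj] at h
    have := Z.equivFin.symm.injective (Subtype.ext h)
    exact congrArg Fin.val this
  let c : Finset ℕ → Option (Fin k) := fun J =>
    if h : ∃ t, ∃ a ∈ J, ∃ b ∈ J, g a ≠ g b ∧ ¬ (C t).Adj (g a) (g b) then some h.choose else none
  obtain ⟨Q, hQ, hQc, col, hcol⟩ := hR c (range Z.card) (by rwa [card_range])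
  have hlt : ∀ i ∈ Q, i < Z.card := fun i hi => mem_range.1 (hQ hi)
  rcases col with _ | t
  · right
    obtain ⟨Q', hQ', hc'⟩ := exists_subset_card_eq (s := Q) (n := w) (by rw [hQc]; exact le_max_right N w)
    refine ⟨Q'.image g, ?_, ?_, ?_⟩
    · intro x hx
      obtain ⟨a, -, rfl⟩ := mem_image.1 hx
      exact hg a
    · rw [card_image_of_injOn, hc']
      intro a ha b hb hab
      exact hgi a (hlt a (hQ' ha)) b (hlt b (hQ' hb)) hab
    · intro x hx y hy hxy i
      obtain ⟨a, ha, rfl⟩ := mem_image.1 hx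
      obtain ⟨b, hb, rfl⟩ := mem_image.1 hy
      have hab : a ≠ b := fun h => hxy (by rw [h])
      have h1 := hcol {a, b} (by
        intro j hj
        rcases mem_insert.1 hj with rfl | hj
        · exact hQ' ha
        · rw [mem_singleton.1 hj]
          exact hQ' hb) (card_pair hab)
      by_contra hna
      have h2 : ∃ t, ∃ a' ∈ ({a, b} : Finset ℕ), ∃ b' ∈ ({a, b} : Finset ℕ), g a' ≠ g b' ∧
          ¬ (C t).Adj (g a') (g b') := ⟨i, a, by simp, b, by simp, hxy, hna⟩
      simp only [c, dif_pos h2] at h1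
      exact absurd h1 (by simp)
  · left
    obtain ⟨Q', hQ', hc'⟩ := exists_subset_card_eq (s := Q) (n := N) (by rw [hQc]; exact le_max_left N w)
    refine ⟨t, Q'.image g, ?_, ?_, ?_⟩
    · intro x hx
      obtain ⟨a, -, rfl⟩ := mem_image.1 hx
      exact hg a
    · rw [card_image_of_injOn, hc']
      intro a ha b hb hab
      exact hgi a (hlt a (hQ' ha)) b (hlt b (hQ' hb)) hab
    · intro x hx y hy hxy
      obtain ⟨a, ha, rfl⟩ := mem_image.1 hx
      obtain ⟨b, hb, rfl⟩ := mem_image.1 hy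
      have hab : a ≠ b := fun h => hxy (by rw [h])
      have h1 := hcol {a, b} (by
        intro j hj
        rcases mem_insert.1 hj with rfl | hj
        · exact hQ' ha
        · rw [mem_singleton.1 hj]
          exact hQ' hb) (card_pair hab)
      by_cases h2 : ∃ t, ∃ a' ∈ ({a, b} : Finset ℕ), ∃ b' ∈ ({a, b} : Finset ℕ), g a' ≠ g b' ∧
          ¬ (C t).Adj (g a') (g b')
      · simp only [c, dif_pos h2, Option.some.injEq] at h1
        obtain ⟨a', ha', b', hb', h3, h4⟩ := h2.choose_spec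
        rw [h1] at h4
        rw [mem_insert, mem_singleton] at ha' hb'
        rcases ha' with rfl | rfl <;> rcases hb' with rfl | rfl
        · exact absurd rfl h3
        · exact h4
        · exact fun h => h4 h.symm
        · exact absurd rfl h3
      · simp only [c, dif_neg h2] at h1
        exact absurd h1 (by simp)

/-- the finite Ramsey theorem for the subsets of all sizes up to `T` -/
theorem ram_all (K : Type) [Fintype K] : ∀ T q : ℕ, ∃ N : ℕ, ∀ c : Finset ℕ → K, ∀ S : Finset ℕ,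
    N ≤ S.card → ∃ Q ⊆ S, Q.card = q ∧ ∀ t ≤ T, ∃ col : K, ∀ J ⊆ Q, J.card = t → c J = col := by
  intro T
  induction T with
  | zero =>
    intro q
    obtain ⟨N, hN⟩ := H152HR.ramsey K 0 q
    refine ⟨N, fun c S hS => ?_⟩
    obtain ⟨Q, hQ, hc, col, hcol⟩ := hN c S hS
    refine ⟨Q, hQ, hc, fun t ht => ⟨col, ?_⟩⟩
    obtain rfl : t = 0 := by omega
    exact hcol
  | succ T ih =>
    intro q
    obtain ⟨N1, h1⟩ := H152HR.ramsey K (T + 1) q
    obtain ⟨N2, h2⟩ := ih N1
    refine ⟨N2, fun c S hS => ?_⟩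
    obtain ⟨Q, hQ, hc, hcol⟩ := h2 c S hS
    obtain ⟨Q', hQ', hc', col, hcol'⟩ := h1 c Q hc.ge
    refine ⟨Q', hQ'.trans hQ, hc', fun t ht => ?_⟩
    rcases Nat.lt_or_eq_of_le ht with h | h
    · obtain ⟨col', h'⟩ := hcol t (by omega)
      exact ⟨col', fun J hJ => h' J (hJ.trans hQ')⟩
    · subst h
      exact ⟨col, hcol'⟩

end Pool.Agent.T9h70.Bic
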